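import Pool.Agent.Helper74.EV4.Hyp
import Pool.Agent.Helper3.EVC.E10
import Pool.Agent.Helper3.EVC.E15

/-!
# EV4b core: variance, second absolute moment and decay for all radii
-/

set_option autoImplicit false

namespace Pool.Agent.Helper3.E4

open Polynomial EVC Pool.Agent.Helper74.EV4

variable {b c T κ : ℝ}

theorem wt_pos {r : ℝ} (hr : 0 < r) : 0 < wt r := by
  unfold wt
  positivity

/-- the constant of the far roots -/
noncomputable def K0 (b c T : ℝ) : ℝ := T / (b ^ 2 * c ^ 2)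

theorem K0_pos (hA : Adm b c T κ) : 0 < K0 b c T := by
  have h1 := hA.hb
  have h2 := hA.hc
  have h3 : 0 < T := lt_of_lt_of_le one_pos hA.hT
  unfold K0
  positivity

theorem dist_pos (hA : Adm b c T κ) {L : ℕ} {P : ℝ[X]} (h : Hyp b c T κ L P) {r : ℝ} (hr : 0 < r)
    {ρ : ℂ} (hρ : ρ ∈ Z P) : 0 < ‖(r : ℂ) - ρ‖ := by
  have h1 := h.dist ρ hρ r hr
  have h2 := hA.hb
  have h3 := norm_nonneg ρ
  exact lt_of_lt_of_le (by positivity) h1

theorem norm_p_le (hA : Adm b c T κ) {L : ℕ} {P : ℝ[X]} (h : Hyp b c T κ L P) {r : ℝ} (hr : 0 < r)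
    {ρ : ℂ} (hρ : ρ ∈ Z P) : ‖p r ρ‖ ≤ 1 / b := by
  have h1 := h.dist ρ hρ r hr
  have hb := hA.hb
  have h2 : b * r ≤ ‖(r : ℂ) - ρ‖ := by
    refine le_trans ?_ h1
    have := norm_nonneg ρ
    nlinarith
  have h3 := dist_pos hA h hr hρ
  unfold p
  rw [norm_div, Complex.norm_real, Real.norm_of_nonneg hr.le, div_le_div_iff₀ h3 hb]
  linarith

theorem q_eq {r : ℝ} {ρ : ℂ} (h : (r : ℂ) - ρ ≠ 0) :
    p r ρ * (1 - p r ρ) = -((r : ℂ) * ρ) / ((r : ℂ) - ρ) ^ 2 := by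
  unfold p
  field_simp
  ring

theorem norm_q {r : ℝ} (hr : 0 < r) {ρ : ℂ} (h : (r : ℂ) - ρ ≠ 0) :
    ‖p r ρ * (1 - p r ρ)‖ = r * ‖ρ‖ / ‖(r : ℂ) - ρ‖ ^ 2 := by
  rw [q_eq h, norm_div, norm_neg, norm_mul, Complex.norm_real, Real.norm_of_nonneg hr.le, norm_pow]

/-- far roots -/
theorem norm_q_far (hA : Adm b c T κ) {L : ℕ} {P : ℝ[X]} (h : Hyp b c T κ L P) {r : ℝ}
    (hr : 0 < r) {ρ : ℂ} (hρ : ρ ∈ Z P) (hc : c ≤ ‖ρ‖) :
    ‖p r ρ * (1 - p r ρ)‖ ≤ K0 b c T * wt r := by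
  have h3 := dist_pos hA h hr hρ
  have hb := hA.hb
  have hc0 := hA.hc
  have hc1 := hA.hc1
  have h0 : (r : ℂ) - ρ ≠ 0 := norm_pos_iff.1 h3
  have h1 := h.dist ρ hρ r hr
  have hT := h.far ρ hρ
  obtain ⟨x, hx⟩ : ∃ x, x = ‖ρ‖ := ⟨_, rfl⟩
  rw [norm_q hr h0, ← hx]
  rw [← hx] at h1 hT hc
  have hx0 : 0 < x := lt_of_lt_of_le hc0 hc
  have h4 : (b * (r + x)) ^ 2 ≤ ‖(r : ℂ) - ρ‖ ^ 2 := pow_le_pow_left₀ (by positivity) h1 2
  have h5 : r * x / ‖(r : ℂ) - ρ‖ ^ 2 ≤ r * x / (b * (r + x)) ^ 2 :=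
    div_le_div_of_nonneg_left (by positivity) (by positivity) h4
  refine h5.trans ?_
  unfold K0 wt
  rw [div_mul_div_comm, div_le_div_iff₀ (by positivity) (by positivity)]
  have h6 : c * (1 + r) ≤ r + x := by nlinarith
  have h7 : (c * (1 + r)) ^ 2 ≤ (r + x) ^ 2 := pow_le_pow_left₀ (by positivity) h6 2
  have h8 : x * (c * (1 + r)) ^ 2 ≤ T * (r + x) ^ 2 := by
    have h9 : 0 ≤ (r + x) ^ 2 := sq_nonneg _
    calc x * (c * (1 + r)) ^ 2 ≤ x * (r + x) ^ 2 := mul_le_mul_of_nonneg_left h7 hx0.le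
      _ ≤ T * (r + x) ^ 2 := mul_le_mul_of_nonneg_right hT h9
  have h9 : 0 ≤ r * b ^ 2 := by positivity
  calc r * x * (b ^ 2 * c ^ 2 * (1 + r) ^ 2) = r * b ^ 2 * (x * (c * (1 + r)) ^ 2) := by ring
    _ ≤ r * b ^ 2 * (T * (r + x) ^ 2) := mul_le_mul_of_nonneg_left h8 h9
    _ = T * r * (b * (r + x)) ^ 2 := by ring

/-- near roots -/
theorem q_near {r : ℝ} (hr : 0 < r) {ρ : ℂ} (him : ρ.im = 0) (hre : ρ.re < 0) :
    p r ρ * (1 - p r ρ) = ((‖p r ρ * (1 - p r ρ)‖ : ℝ) : ℂ) ∧ ‖p r ρ * (1 - p r ρ)‖ ≤ 1 / 4 := by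
  obtain ⟨t, ht⟩ : ∃ t : ℝ, t = -ρ.re := ⟨_, rfl⟩
  have ht0 : 0 < t := by linarith
  have hρ : ρ = -(t : ℂ) := by
    apply Complex.ext
    · simp [ht]
    · simp [him]
  have h1 : (r : ℂ) - ρ = ((r + t : ℝ) : ℂ) := by
    rw [hρ]
    push_cast
    ring
  have h2 : (r : ℂ) - ρ ≠ 0 := by
    rw [h1, Ne, Complex.ofReal_eq_zero]
    positivity
  have h3 : p r ρ * (1 - p r ρ) = ((r * t / (r + t) ^ 2 : ℝ) : ℂ) := by
    rw [q_eq h2, h1, hρ]
    push_cast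
    ring
  have h4 : 0 ≤ r * t / (r + t) ^ 2 := by positivity
  have h5 : r * t / (r + t) ^ 2 ≤ 1 / 4 := by
    rw [div_le_div_iff₀ (by positivity) (by norm_num)]
    nlinarith [sq_nonneg (r - t)]
  rw [h3, Complex.norm_real, Real.norm_of_nonneg h4]
  exact ⟨rfl, h5⟩

theorem q_bound (hA : Adm b c T κ) {L : ℕ} {P : ℝ[X]} (h : Hyp b c T κ L P) {r : ℝ}
    (hr : 0 < r) {ρ : ℂ} (hρ : ρ ∈ Z P) :
    ‖p r ρ * (1 - p r ρ)‖ ≤ (p r ρ * (1 - p r ρ)).re + 2 * (K0 b c T * wt r) := by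
  have hK := K0_pos hA
  have hw := wt_pos hr
  rcases lt_or_ge ‖ρ‖ c with h1 | h1
  · obtain ⟨h2, h3⟩ := h.neg ρ hρ h1
    obtain ⟨h4, -⟩ := q_near hr h2 h3
    have h5 : (p r ρ * (1 - p r ρ)).re = ‖p r ρ * (1 - p r ρ)‖ := by
      conv_lhs => rw [h4]
      exact Complex.ofReal_re _
    rw [h5]
    have : 0 ≤ K0 b c T * wt r := by positivity
    linarith
  · have h2 := norm_q_far hA h hr hρ h1
    have h3 : -‖p r ρ * (1 - p r ρ)‖ ≤ (p r ρ * (1 - p r ρ)).re :=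
      (abs_le.1 (Complex.abs_re_le_norm _)).1
    linarith

theorem card_le {L : ℕ} {P : ℝ[X]} (h : Nice L P) : 2 * ((Z P).card : ℝ) ≤ L := by
  have h1 : (Z P).card ≤ P.natDegree := by
    refine (Polynomial.card_roots' _).trans ?_
    exact Polynomial.natDegree_map_le
  have h2 := h.deg
  have h3 : 2 * (Z P).card ≤ L := by omega
  exact_mod_cast h3

theorem V_re (P : ℝ[X]) (r : ℝ) : V P r = ((Z P).map fun ρ => (p r ρ * (1 - p r ρ)).re).sum := by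
  unfold V
  induction (Z P) using Multiset.induction_on with
  | empty => simp
  | cons a s ih =>
    rw [Multiset.map_cons, Multiset.sum_cons, Multiset.map_cons, Multiset.sum_cons, Complex.add_re,
      ih]

theorem W_le_add (hA : Adm b c T κ) {L : ℕ} {P : ℝ[X]} (h : Hyp b c T κ L P) {r : ℝ}
    (hr : 0 < r) : W P r ≤ V P r + K0 b c T * (L * wt r) := by
  have hK := K0_pos hA
  have hw := wt_pos hr
  have h1 : W P r ≤ ((Z P).map fun ρ => (p r ρ * (1 - p r ρ)).re + 2 * (K0 b c T * wt r)).sum := by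
    unfold W
    exact Multiset.sum_map_le_sum_map _ _ fun ρ hρ => q_bound hA h hr hρ
  rw [Multiset.sum_map_add, ← V_re, Multiset.map_const', Multiset.sum_replicate, nsmul_eq_mul]
    at h1
  have h2 := card_le h.toNice
  have h3 : 2 * ((Z P).card : ℝ) * (K0 b c T * wt r) ≤ L * (K0 b c T * wt r) :=
    mul_le_mul_of_nonneg_right h2 (by positivity)
  linarith

/-- the lower bound of the variance, from the decay at small angles -/
theorem var_ge (hA : Adm b c T κ) {L : ℕ} {P : ℝ[X]} (h : Hyp b c T κ L P) {r : ℝ}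
    (hr : 0 < r) : κ * L * wt r ≤ V P r := by
  obtain ⟨θ₂, hθ₂, K, hK, hlf⟩ := local_form (B := 1 / b) (by
    rw [le_div_iff₀ hA.hb]
    linarith [hA.hb1])
  have hκ := hA.hκ
  have hw := wt_pos hr
  have hPr := h.toNice.eval_pos hr
  obtain ⟨a, ha⟩ : ∃ a, a = κ * L * wt r := ⟨_, rfl⟩
  have ha0 : 0 ≤ a := by rw [ha]; positivity
  have hW : 0 ≤ W P r := by
    unfold W
    apply Multiset.sum_nonneg
    intro x hx
    obtain ⟨ρ, -, rfl⟩ := Multiset.mem_map.1 hx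
    exact norm_nonneg _
  rw [← ha]
  refine le_of_forall_pos_le_add fun ε hε => ?_
  obtain ⟨θ, hθ⟩ : ∃ θ, θ = min (min θ₂ 1) (ε / (2 * K * W P r + a + 1)) := ⟨_, rfl⟩
  have hden : 0 < 2 * K * W P r + a + 1 := by positivity
  have hθ0 : 0 < θ := by
    rw [hθ]
    refine lt_min (lt_min hθ₂ one_pos) (by positivity)
  have hθ1 : θ ≤ θ₂ := by
    rw [hθ]
    exact (min_le_left _ _).trans (min_le_left _ _)
  have hθ2 : θ ≤ 1 := by
    rw [hθ]
    exact (min_le_left _ _).trans (min_le_right _ _)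
  have hθ3 : θ * (2 * K * W P r + a + 1) ≤ ε := by
    rw [← le_div_iff₀ hden, hθ]
    exact min_le_right _ _
  obtain ⟨w, hw1, hw2⟩ := hlf L P h.toNice r hr (fun ρ hρ => norm_p_le hA h hr hρ) θ
    (by rw [abs_of_pos hθ0]; exact hθ1)
  rw [abs_of_pos hθ0] at hw1
  have hd := h.dec r θ hr (by
    rw [abs_of_pos hθ0]
    linarith [Real.pi_gt_three])
  rw [hw2, norm_mul, Complex.norm_real, Real.norm_of_nonneg hPr.le, Complex.norm_exp, mul_comm,
    ← ha] at hd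
  have hd2 := le_of_mul_le_mul_right hd hPr
  have hd3 := Real.exp_le_exp.1 hd2
  have hre : ((θ : ℂ) * (mean P r : ℂ) * Complex.I - (θ : ℂ) ^ 2 / 2 * (V P r : ℂ) + w).re =
      -(θ ^ 2 / 2 * V P r) + w.re := by
    have e1 : (θ : ℂ) ^ 2 / 2 * (V P r : ℂ) = ((θ ^ 2 / 2 * V P r : ℝ) : ℂ) := by
      push_cast
      ring
    have e2 : ((θ : ℂ) * (mean P r : ℂ) * Complex.I).re = 0 := by
      have : (θ : ℂ) * (mean P r : ℂ) * Complex.I = ((θ * mean P r : ℝ) : ℂ) * Complex.I := by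
        push_cast
        ring
      rw [this, Complex.re_ofReal_mul, Complex.I_re, mul_zero]
    rw [Complex.add_re, Complex.sub_re, e1, Complex.ofReal_re, e2]
    ring
  rw [hre] at hd3
  have hwr : -‖w‖ ≤ w.re := (abs_le.1 (Complex.abs_re_le_norm _)).1
  have hcos := (abs_le.1 (Real.cos_bound (x := θ) (by rw [abs_of_pos hθ0]; exact hθ2))).2
  rw [abs_of_pos hθ0] at hcos
  have h1 : θ ^ 2 / 2 - θ ^ 4 * (5 / 96) ≤ 1 - Real.cos θ := by linarith
  have h2 : a * (θ ^ 2 / 2 - θ ^ 4 * (5 / 96)) ≤ a * (1 - Real.cos θ) :=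
    mul_le_mul_of_nonneg_left h1 ha0
  have h3 : a * (θ ^ 2 / 2) ≤ θ ^ 2 / 2 * V P r + K * W P r * θ ^ 3 + a * (θ ^ 4 * (5 / 96)) := by
    linarith
  have h4 : θ ^ 2 / 2 * a ≤ θ ^ 2 / 2 * (V P r + ε) := by
    have h5 : θ ^ 4 ≤ θ ^ 3 := pow_le_pow_of_le_one hθ0.le hθ2 (by norm_num)
    have h6 : a * (θ ^ 4 * (5 / 96)) ≤ a * θ ^ 3 / 2 := by
      have h61 : 0 ≤ θ ^ 3 := by positivity
      have h62 : θ ^ 4 * (5 / 96) ≤ θ ^ 3 / 2 := by linarith
      calc a * (θ ^ 4 * (5 / 96)) ≤ a * (θ ^ 3 / 2) := mul_le_mul_of_nonneg_left h62 ha0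
        _ = a * θ ^ 3 / 2 := by ring
    have h7 : θ ^ 2 / 2 * (θ * (2 * K * W P r + a + 1)) ≤ θ ^ 2 / 2 * ε :=
      mul_le_mul_of_nonneg_left hθ3 (by positivity)
    have h8 : 0 ≤ θ ^ 3 := by positivity
    nlinarith
  exact le_of_mul_le_mul_left h4 (by positivity)

theorem W_le (hA : Adm b c T κ) {L : ℕ} {P : ℝ[X]} (h : Hyp b c T κ L P) {r : ℝ}
    (hr : 0 < r) : W P r ≤ (1 + K0 b c T / κ) * V P r := by
  have h1 := W_le_add hA h hr
  have h2 := var_ge hA h hr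
  have hK := K0_pos hA
  have hκ := hA.hκ
  have h3 : K0 b c T / κ * (κ * L * wt r) ≤ K0 b c T / κ * V P r :=
    mul_le_mul_of_nonneg_left h2 (by positivity)
  have h4 : K0 b c T / κ * (κ * L * wt r) = K0 b c T * (L * wt r) := by
    field_simp
  linarith

/-- one factor of `‖P‖ ^ 2` -/
theorem factor_le (hA : Adm b c T κ) {L : ℕ} {P : ℝ[X]} (h : Hyp b c T κ L P) {r : ℝ}
    (hr : 0 < r) {ρ : ℂ} (hρ : ρ ∈ Z P) {u : ℝ} (hu : 0 ≤ u) (hu2 : u ≤ 2) :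
    ‖1 - 2 * (u : ℂ) * (p r ρ * (1 - p r ρ))‖ ≤
      Real.exp (-(2 * u * (‖p r ρ * (1 - p r ρ)‖ - 2 * (K0 b c T * wt r)))) := by
  have hK := K0_pos hA
  have hw := wt_pos hr
  have hKw : 0 ≤ K0 b c T * wt r := by positivity
  rcases lt_or_ge ‖ρ‖ c with h1 | h1
  · obtain ⟨h2, h3⟩ := h.neg ρ hρ h1
    obtain ⟨h4, h5⟩ := q_near hr h2 h3
    obtain ⟨q, hq⟩ : ∃ q : ℝ, q = ‖p r ρ * (1 - p r ρ)‖ := ⟨_, rfl⟩
    rw [h4, ← hq]
    rw [← hq] at h5
    have hq0 : 0 ≤ q := by rw [hq]; exact norm_nonneg _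
    have e1 : 1 - 2 * (u : ℂ) * (q : ℂ) = ((1 - 2 * u * q : ℝ) : ℂ) := by
      push_cast
      ring
    rw [e1, Complex.norm_real, Complex.norm_real, Real.norm_of_nonneg hq0, Real.norm_of_nonneg (by nlinarith)]
    have h6 : 1 - 2 * u * q ≤ Real.exp (-(2 * u * q)) := by
      have := Real.add_one_le_exp (-(2 * u * q))
      linarith
    refine h6.trans (Real.exp_le_exp.2 ?_)
    have h7 : 0 ≤ u * (K0 b c T * wt r) := by positivity
    nlinarith
  · have h2 := norm_q_far hA h hr hρ h1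
    obtain ⟨q, hq⟩ : ∃ q : ℝ, q = ‖p r ρ * (1 - p r ρ)‖ := ⟨_, rfl⟩
    rw [← hq] at h2 ⊢
    have hq0 : 0 ≤ q := by rw [hq]; exact norm_nonneg _
    have h3 : ‖1 - 2 * (u : ℂ) * (p r ρ * (1 - p r ρ))‖ ≤ 1 + 2 * u * q := by
      refine (norm_sub_le _ _).trans ?_
      rw [norm_one, norm_mul, norm_mul, Complex.norm_real, Real.norm_of_nonneg hu, ← hq]
      norm_num
    refine h3.trans ?_
    have h6 : 1 + 2 * u * q ≤ Real.exp (2 * u * q) := by
      have := Real.add_one_le_exp (2 * u * q)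
      linarith
    refine h6.trans (Real.exp_le_exp.2 ?_)
    nlinarith [mul_le_mul_of_nonneg_left h2 hu]

theorem norm_prod_le (S : Multiset ℂ) (f : ℂ → ℂ) (g : ℂ → ℝ) (h : ∀ x ∈ S, ‖f x‖ ≤ Real.exp (g x)) :
    ‖(S.map f).prod‖ ≤ Real.exp (S.map g).sum := by
  induction S using Multiset.induction_on with
  | empty => simp
  | cons a s ih =>
    rw [Multiset.map_cons, Multiset.prod_cons, Multiset.map_cons, Multiset.sum_cons, norm_mul,
      Real.exp_add]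
    exact mul_le_mul (h a (Multiset.mem_cons_self _ _))
      (ih fun x hx => h x (Multiset.mem_cons_of_mem hx)) (norm_nonneg _) (Real.exp_pos _).le

theorem dec_W (hA : Adm b c T κ) {L : ℕ} {P : ℝ[X]} (h : Hyp b c T κ L P) {r : ℝ}
    (hr : 0 < r) (θ : ℝ) : ‖aeval (pt r θ) P‖ ≤
      Real.exp (-((1 - Real.cos θ) * (W P r - K0 b c T * (L * wt r)))) * P.eval r := by
  have hPr := h.toNice.eval_pos hr
  have hK := K0_pos hA
  have hw := wt_pos hr
  obtain ⟨u, hu⟩ : ∃ u, u = 1 - Real.cos θ := ⟨_, rfl⟩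
  have hu0 : 0 ≤ u := by
    rw [hu]
    linarith [Real.cos_le_one θ]
  have hu2 : u ≤ 2 := by
    rw [hu]
    linarith [Real.neg_one_le_cos θ]
  have h1 := sq_formula h.toNice θ hr
  have h2 := congrArg norm h1
  rw [Complex.norm_real, norm_mul, Complex.norm_real, Real.norm_of_nonneg (sq_nonneg _),
    Real.norm_of_nonneg (sq_nonneg _)] at h2
  have h3 : ‖((Z P).map fun ρ => 1 - 2 * (1 - (Real.cos θ : ℂ)) * (p r ρ * (1 - p r ρ))).prod‖ ≤
      Real.exp ((Z P).map fun ρ => -(2 * u * (‖p r ρ * (1 - p r ρ)‖ -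
        2 * (K0 b c T * wt r)))).sum := by
    refine norm_prod_le _ _ _ fun ρ hρ => ?_
    have e1 : (1 - (Real.cos θ : ℂ)) = (u : ℂ) := by
      rw [hu]
      push_cast
      ring
    rw [e1]
    exact factor_le hA h hr hρ hu0 hu2
  have h4 : ((Z P).map fun ρ => -(2 * u * (‖p r ρ * (1 - p r ρ)‖ -
        2 * (K0 b c T * wt r)))).sum ≤ 2 * -(u * (W P r - K0 b c T * (L * wt r))) := by
    have e2 : ((Z P).map fun ρ => -(2 * u * (‖p r ρ * (1 - p r ρ)‖ -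
        2 * (K0 b c T * wt r)))) = (Z P).map fun ρ => (-(2 * u)) * ‖p r ρ * (1 - p r ρ)‖ +
        4 * u * (K0 b c T * wt r) := by
      refine Multiset.map_congr rfl fun ρ _ => ?_
      ring
    rw [e2, Multiset.sum_map_add, Multiset.sum_map_mul_left, Multiset.map_const',
      Multiset.sum_replicate, nsmul_eq_mul]
    have e3 : ((Z P).map fun ρ => ‖p r ρ * (1 - p r ρ)‖).sum = W P r := rfl
    rw [e3]
    have h5 := card_le h.toNice
    have h6 : 2 * ((Z P).card : ℝ) * (u * (K0 b c T * wt r)) ≤ L * (u * (K0 b c T * wt r)) :=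
      mul_le_mul_of_nonneg_right h5 (by positivity)
    nlinarith
  have h5 : ‖aeval (pt r θ) P‖ ^ 2 ≤
      (Real.exp (-(u * (W P r - K0 b c T * (L * wt r)))) * P.eval r) ^ 2 := by
    rw [h2, mul_pow, ← Real.exp_nat_mul, Nat.cast_ofNat, mul_comm]
    exact mul_le_mul_of_nonneg_right (h3.trans (Real.exp_le_exp.2 h4)) (sq_nonneg _)
  rw [← hu]
  exact le_of_sq_le_sq h5 (by positivity)

/-- the decay in terms of the variance, all radii -/
theorem dec_V (hA : Adm b c T κ) {L : ℕ} {P : ℝ[X]} (h : Hyp b c T κ L P) {r : ℝ}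
    (hr : 0 < r) {θ : ℝ} (hθ : |θ| ≤ Real.pi) : ‖aeval (pt r θ) P‖ ≤
      Real.exp (-(κ / (κ + K0 b c T) * V P r * (1 - Real.cos θ))) * P.eval r := by
  have hPr := h.toNice.eval_pos hr
  have hK := K0_pos hA
  have hκ := hA.hκ
  have hw := wt_pos hr
  have hu0 : 0 ≤ 1 - Real.cos θ := by linarith [Real.cos_le_one θ]
  have hVW := V_le_W P r
  obtain ⟨X, hX⟩ : ∃ X, X = L * wt r := ⟨_, rfl⟩
  rcases le_total (κ / (κ + K0 b c T) * V P r) (κ * X) with h1 | h1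
  · refine (h.dec r θ hr hθ).trans (mul_le_mul_of_nonneg_right (Real.exp_le_exp.2 ?_) hPr.le)
    apply neg_le_neg
    refine mul_le_mul_of_nonneg_right ?_ hu0
    rw [mul_assoc, ← hX]
    exact h1
  · refine (dec_W hA h hr θ).trans (mul_le_mul_of_nonneg_right (Real.exp_le_exp.2 ?_) hPr.le)
    apply neg_le_neg
    rw [mul_comm (1 - Real.cos θ)]
    refine mul_le_mul_of_nonneg_right ?_ hu0
    rw [← hX]
    have h2 : X ≤ V P r / (κ + K0 b c T) := by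
      have h3 : κ * X ≤ κ * (V P r / (κ + K0 b c T)) := by
        refine h1.trans (le_of_eq ?_)
        ring
      exact le_of_mul_le_mul_left h3 hκ
    have h3 : K0 b c T * X ≤ K0 b c T * (V P r / (κ + K0 b c T)) :=
      mul_le_mul_of_nonneg_left h2 hK.le
    have h4 : κ / (κ + K0 b c T) * V P r + K0 b c T * (V P r / (κ + K0 b c T)) = V P r := by
      field_simp
    linarith

end Pool.Agent.Helper3.E4
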